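import Pool.Agent.H444.CL.Stm

set_option autoImplicit false

/-!
FACT (helper215 for helper444's project CL): the regular part of `F'/F` on the strip `0 < Re s`, `T/2 < Im s < 4T`.
-/

namespace Pool.Agent.H215.CL

open Filter Topology Complex Set
open H370
open Pool.Agent.H444.CL

noncomputable section

/-- near a zero of finite order the logarithmic derivative is `m/(z - s₀)` plus an analytic function -/
lemma logDeriv_local {F : ℂ → ℂ} {s₀ : ℂ} (hF : AnalyticAt ℂ F s₀) (ht : analyticOrderAt F s₀ ≠ ⊤) :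
    ∃ G : ℂ → ℂ, AnalyticAt ℂ G s₀ ∧ ∀ᶠ z in 𝓝[≠] s₀,
      F z ≠ 0 ∧ deriv F z / F z = (mult F s₀ : ℂ) / (z - s₀) + G z := by
  have h1 : analyticOrderAt F s₀ = (mult F s₀ : ℕ∞) := by
    unfold mult
    rw [Nat.cast_analyticOrderNatAt ht]
  obtain ⟨g, hg, hg0, he⟩ := (hF.analyticOrderAt_eq_natCast).1 h1
  set m : ℕ := mult F s₀ with hm
  refine ⟨fun z => deriv g z / g z, hg.deriv.div hg hg0, ?_⟩
  have h2 : ∀ᶠ z in 𝓝 s₀, g z ≠ 0 := hg.continuousAt.eventually_ne hg0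
  have h3 : ∀ᶠ z in 𝓝 s₀, AnalyticAt ℂ g z := hg.eventually_analyticAt
  have h4 : ∀ᶠ z in 𝓝 s₀, ∀ᶠ w in 𝓝 z, F w = (w - s₀) ^ m • g w := he.eventually_nhds
  filter_upwards [h2.filter_mono nhdsWithin_le_nhds, h3.filter_mono nhdsWithin_le_nhds,
    h4.filter_mono nhdsWithin_le_nhds, self_mem_nhdsWithin] with z hz2 hz3 hz4 hz5
  have hz5' : z - s₀ ≠ 0 := sub_ne_zero.2 hz5
  have hFz : F z = (z - s₀) ^ m * g z := by
    have := hz4.self_of_nhds
    simpa [smul_eq_mul] using this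
  have hd : deriv F z = (m : ℂ) * (z - s₀) ^ (m - 1) * g z + (z - s₀) ^ m * deriv g z := by
    have e1 : F =ᶠ[𝓝 z] fun w => (w - s₀) ^ m * g w := by
      filter_upwards [hz4] with w hw
      simpa [smul_eq_mul] using hw
    rw [e1.deriv_eq]
    have d1 : HasDerivAt (fun w : ℂ => (w - s₀) ^ m) ((m : ℂ) * (z - s₀) ^ (m - 1) * 1) z :=
      ((hasDerivAt_id z).sub_const s₀).pow m
    have d2 : HasDerivAt g (deriv g z) z := hz3.differentiableAt.hasDerivAt
    have d3 : HasDerivAt (fun w : ℂ => (w - s₀) ^ m * g w)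
        ((m : ℂ) * (z - s₀) ^ (m - 1) * 1 * g z + (z - s₀) ^ m * deriv g z) z := d1.mul d2
    rw [d3.deriv]
    ring
  have hFne : F z ≠ 0 := by
    rw [hFz]
    exact mul_ne_zero (pow_ne_zero _ hz5') hz2
  refine ⟨hFne, ?_⟩
  rw [hd, hFz]
  rcases Nat.eq_zero_or_pos m with h0 | h0
  · simp [h0]
  · obtain ⟨k, hk⟩ : ∃ k, m = k + 1 := ⟨m - 1, by omega⟩
    rw [hk]
    simp only [Nat.add_sub_cancel]
    field_simp
    ring

/-- the order of `F` is finite everywhere in the upper half plane -/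
lemma order_ne_top' {F : ℂ → ℂ} (hF : GoodL F) {s : ℂ} (hs : 0 < s.im) : analyticOrderAt F s ≠ ⊤ := by
  have hK : IsPreconnected {z : ℂ | 0 < z.im} := (convex_halfSpace_im_gt 0).isPreconnected
  have hc : F (⟨2, 1⟩ : ℂ) ≠ 0 := hF.nzr _ (by norm_num) (by norm_num)
  exact H370.Loc.order_ne_top hK (fun z hz => hF.an z hz) (c := (⟨2, 1⟩ : ℂ)) (by norm_num) hc hs

theorem t_FACT : S_FACT := by
  intro F hF T hT
  classical
  set Z : Finset ℂ := ZT F T with hZ
  have hmem : ∀ s : ℂ, s ∈ Z ↔ s ∈ zset F (T / 2) (4 * T) := by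
    intro s
    rw [hZ]
    exact mem_Zf hF (by linarith)
  let Q₀ : ℂ → ℂ := fun s => deriv F s / F s - ∑ ρ ∈ Z, (mult F ρ : ℂ) / (s - ρ)
  let Ω : Set ℂ := {s : ℂ | 0 < s.re ∧ T / 2 < s.im ∧ s.im < 4 * T}
  have hΩ : IsOpen Ω := by
    have h1 : IsOpen {s : ℂ | 0 < s.re} := isOpen_lt continuous_const Complex.continuous_re
    have h2 : IsOpen {s : ℂ | T / 2 < s.im} := isOpen_lt continuous_const Complex.continuous_im
    have h3 : IsOpen {s : ℂ | s.im < 4 * T} := isOpen_lt Complex.continuous_im continuous_const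
    have : Ω = {s : ℂ | 0 < s.re} ∩ ({s : ℂ | T / 2 < s.im} ∩ {s : ℂ | s.im < 4 * T}) := by
      ext s; simp [Ω]
    rw [this]
    exact h1.inter (h2.inter h3)
  -- zeros in Ω are in Z
  have hzero : ∀ s ∈ Ω, F s = 0 → s ∈ Z := by
    intro s hs h0
    rw [hmem]
    refine ⟨hs.1, ?_, hs.2.1, hs.2.2.le, h0⟩
    by_contra hcon
    push Not at hcon
    exact hF.nzr s hcon (by linarith [hs.2.1]) h0
  -- at non-zeros the function `Q₀` is analytic
  have hnz : ∀ s ∈ Ω, F s ≠ 0 → AnalyticAt ℂ Q₀ s := by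
    intro s hs h0
    have ha := hF.an s (by linarith [hs.2.1])
    refine (ha.deriv.div ha h0).sub ?_
    refine Finset.analyticAt_fun_sum _ ?_
    intro ρ hρ
    refine analyticAt_const.div (analyticAt_id.sub analyticAt_const) ?_
    intro h
    have : s = ρ := sub_eq_zero.1 h
    rw [hmem] at hρ
    exact h0 (this ▸ hρ.2.2.2.2)
  -- everywhere, `Q₀` extends analytically
  have hloc : ∀ s ∈ Ω, ∃ G : ℂ → ℂ, AnalyticAt ℂ G s ∧ ∀ᶠ z in 𝓝[≠] s, F z ≠ 0 ∧ Q₀ z = G z := by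
    intro s hs
    have him : 0 < s.im := by linarith [hs.2.1]
    obtain ⟨G, hG, hev⟩ := logDeriv_local (hF.an s him) (order_ne_top' hF him)
    by_cases h0 : F s = 0
    · have hsZ := hzero s hs h0
      refine ⟨fun z => G z - ∑ ρ ∈ Z.erase s, (mult F ρ : ℂ) / (z - ρ), ?_, ?_⟩
      · refine hG.sub ?_
        refine Finset.analyticAt_fun_sum _ ?_
        intro ρ hρ
        refine analyticAt_const.div (analyticAt_id.sub analyticAt_const) ?_
        intro h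
        exact (Finset.mem_erase.1 hρ).1 (sub_eq_zero.1 h).symm
      · filter_upwards [hev] with z hz
        refine ⟨hz.1, ?_⟩
        show deriv F z / F z - ∑ ρ ∈ Z, (mult F ρ : ℂ) / (z - ρ) = _
        rw [hz.2, ← Finset.add_sum_erase Z (fun ρ => (mult F ρ : ℂ) / (z - ρ)) hsZ]
        ring
    · refine ⟨Q₀, hnz s hs h0, ?_⟩
      filter_upwards [hev] with z hz
      exact ⟨hz.1, rfl⟩
  -- the extension
  let Q : ℂ → ℂ := fun s => limUnder (𝓝[≠] s) Q₀
  have hQ : ∀ s ∈ Ω, ∀ G : ℂ → ℂ, ContinuousAt G s → (∀ᶠ z in 𝓝[≠] s, Q₀ z = G z) → Q s = G s := by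
    intro s hs G hG hev
    have h1 : Tendsto Q₀ (𝓝[≠] s) (𝓝 (G s)) := by
      have h2 : Tendsto G (𝓝[≠] s) (𝓝 (G s)) := hG.tendsto.mono_left nhdsWithin_le_nhds
      refine h2.congr' ?_
      filter_upwards [hev] with z hz
      exact hz.symm
    exact h1.limUnder_eq
  have hQ1 : ∀ s ∈ Ω, F s ≠ 0 → Q s = Q₀ s := by
    intro s hs h0
    exact hQ s hs Q₀ (hnz s hs h0).continuousAt (Eventually.of_forall fun z => rfl)
  refine ⟨Q, ?_, ?_⟩
  · intro s h1 h2 h3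
    have hs : s ∈ Ω := ⟨h1, h2, h3⟩
    obtain ⟨G, hG, hev⟩ := hloc s hs
    refine hG.congr ?_
    have hev2 : ∀ᶠ z in 𝓝[≠] s, G z = Q z := by
      filter_upwards [hev, (hΩ.mem_nhds hs : Ω ∈ 𝓝 s) |> fun h => nhdsWithin_le_nhds h] with z hz hzΩ
      rw [hQ1 z hzΩ hz.1, hz.2]
    have hself : G s = Q s := (hQ s hs G hG.continuousAt (hev.mono fun z hz => hz.2)).symm
    rw [eventually_nhdsWithin_iff] at hev2
    filter_upwards [hev2] with z hz
    by_cases hzs : z = s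
    · rw [hzs]; exact hself
    · exact hz hzs
  · intro s h1 h2 h3 h0
    have hs : s ∈ Ω := ⟨h1, h2, h3⟩
    rw [hQ1 s hs h0]
    show _ = ∑ ρ ∈ Z, (mult F ρ : ℂ) / (s - ρ) + (deriv F s / F s - ∑ ρ ∈ Z, (mult F ρ : ℂ) / (s - ρ))
    ring

end

end Pool.Agent.H215.CL
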